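import Pool.Agent.N804.LI.Stm
import Pool.Agent.N804.LI.StmL
import Pool.Agent.TH988.RB.Lan

/-!
Project LI (helper804), part LAN (helper971): a one-sided bound excludes exponential terms.
-/

set_option autoImplicit false

namespace Pool.Agent.N971.LI

open Filter Topology MeasureTheory Set
open Pool.Agent.N804.LI
open Pool.Agent.W263.BSD (LInt lap lapC lapC_ofReal lap_nonneg)
open Pool.Agent.TH988.RB (landau_lap)

/-- an analytic function is bounded near a point -/
theorem near_bdd {F : ℂ → ℂ} {s0 : ℂ} (h : AnalyticAt ℂ F s0) :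
    ∃ δ K : ℝ, 0 < δ ∧ ∀ s, ‖s - s0‖ < δ → ‖F s‖ ≤ K := by
  obtain ⟨δ, hδ, h1⟩ := Metric.continuousAt_iff.1 h.continuousAt 1 one_pos
  refine ⟨δ, ‖F s0‖ + 1, hδ, fun s hs => ?_⟩
  have h2 := h1 (x := s) (by rwa [dist_eq_norm])
  rw [dist_eq_norm] at h2
  have h3 := norm_sub_norm_le (F s) (F s0)
  linarith

theorem no_pole {c δ K : ℝ} (hδ : 0 < δ) (h : ∀ t, 0 < t → t < δ → c / t ≤ K) : c ≤ 0 := by
  by_contra hc
  push Not at hc
  obtain ⟨t, ht⟩ : ∃ t, t = min (δ / 2) (c / (2 * (|K| + 1))) := ⟨_, rfl⟩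
  have hK : 0 < 2 * (|K| + 1) := by positivity
  have ht0 : 0 < t := by
    rw [ht]
    exact lt_min (by linarith) (div_pos hc hK)
  have ht1 : t < δ := by
    rw [ht]
    exact (min_le_left _ _).trans_lt (by linarith)
  have ht2 : t ≤ c / (2 * (|K| + 1)) := by
    rw [ht]
    exact min_le_right _ _
  have h1 := h t ht0 ht1
  rw [div_le_iff₀ ht0] at h1
  rw [le_div_iff₀ hK] at ht2
  have h2 : K * t ≤ |K| * t := mul_le_mul_of_nonneg_right (le_abs_self K) ht0.le
  have h3 : 0 ≤ |K| * t := mul_nonneg (abs_nonneg K) ht0.le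
  nlinarith

open Classical in
theorem residue {Z : Type} (z : Z → ℂ) (μ : Z → ℝ) (A : ℂ → ℂ) (hμ : ∀ k, 0 < μ k)
    (hfin : ∀ R : ℝ, {k | ‖z k‖ ≤ R}.Finite) (k0 : Z) :
    ∃ M : ℝ, 0 < M ∧ (∑' k, if z k = z k0 then (μ k : ℂ) * A (z k) else 0) = M * A (z k0) := by
  refine ⟨∑' k, if z k = z k0 then μ k else 0, ?_, ?_⟩
  · have hs : Summable fun k => if z k = z k0 then μ k else 0 := by
      apply summable_of_hasFiniteSupport
      refine (hfin ‖z k0‖).subset ?_
      intro k hk
      by_contra hcon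
      apply hk
      have h1 : z k ≠ z k0 := by
        intro h
        apply hcon
        show ‖z k‖ ≤ ‖z k0‖
        rw [h]
      show (if z k = z k0 then μ k else 0) = 0
      rw [if_neg h1]
    refine hs.tsum_pos (fun k => ?_) k0 ?_
    · show 0 ≤ if z k = z k0 then μ k else 0
      split_ifs
      · exact (hμ k).le
      · exact le_rfl
    · show 0 < if z k0 = z k0 then μ k0 else 0
      rw [if_pos rfl]
      exact hμ k0
  · rw [Complex.ofReal_tsum, ← tsum_mul_right]
    congr 1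
    funext k
    split_ifs with h
    · rw [h]
    · simp

theorem cint {f : ℝ → ℝ} {w : ℝ} (h : LInt f w) :
    IntegrableOn (fun u : ℝ => (f u : ℂ) * (Real.exp (-(w * u)) : ℂ)) (Ioi 0) := by
  have h1 : IntegrableOn (fun u : ℝ => ((f u * Real.exp (-(w * u)) : ℝ) : ℂ)) (Ioi 0) :=
    Integrable.ofReal h
  refine h1.congr (Eventually.of_forall fun u => ?_)
  simp only [Complex.ofReal_mul]

theorem lap_an (h2 : S_LLP) {f : ℝ → ℝ} (hf : Measurable f) {a : ℝ}
    (h : ∀ w, a < w → LInt f w) (s : ℂ) (hs : a < s.re) :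
    IntegrableOn (fun u : ℝ => (f u : ℂ) * Complex.exp (-(s * u))) (Ioi 0) ∧
      AnalyticAt ℂ (lapC f) s :=
  h2.2 (fun u => (f u : ℂ)) a (Complex.measurable_ofReal.comp hf) (fun w hw => cint (h w hw)) s hs

theorem real_an {F : ℂ → ℂ} {w : ℝ} (h : AnalyticAt ℂ F (w : ℂ)) :
    AnalyticAt ℝ (fun x : ℝ => (F (x : ℂ)).re) w := by
  have h1 : AnalyticAt ℝ F ((Complex.ofRealCLM : ℝ → ℂ) w) := h.restrictScalars
  have h2 := h1.comp (Complex.ofRealCLM.analyticAt w)
  exact (Complex.reCLM.analyticAt _).comp h2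

theorem ray_an {F : ℂ → ℂ} {x t : ℝ} (h : AnalyticAt ℂ F ((x : ℂ) + t * Complex.I)) :
    AnalyticAt ℝ (fun x : ℝ => F ((x : ℂ) + t * Complex.I)) x := by
  have h1 : AnalyticAt ℝ F ((x : ℂ) + t * Complex.I) := h.restrictScalars
  have h2 : AnalyticAt ℝ (fun x : ℝ => (x : ℂ) + t * Complex.I) x :=
    (Complex.ofRealCLM.analyticAt x).add analyticAt_const
  exact AnalyticAt.fun_comp h1 h2

theorem main (h1 : S_PFR) (h2 : S_LLP) : S_LAN := by
  classical
  intro Z z μ A P hμ hre hfin hsum hA0 hAr hP hlim hC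
  obtain ⟨a, ha⟩ : ∃ a : Z → ℂ, a = fun k => (μ k : ℂ) * A (z k) := ⟨_, rfl⟩
  have hsa : Summable fun k => ‖a k‖ := by
    rw [ha]
    refine hsum.congr fun k => ?_
    rw [norm_mul, Complex.norm_real, Real.norm_of_nonneg (hμ k).le]
  obtain ⟨hRa, hRp, hRl⟩ := h1 Z z a hsa hfin
  obtain ⟨hS, hRi⟩ := hRl 1 (fun k => (abs_le.1 (hre k)).2)
  obtain ⟨R, hR⟩ : ∃ R : ℂ → ℂ, R = fun s => ∑' k, a k / (s - z k) := ⟨_, rfl⟩
  have hRan : ∀ s : ℂ, (∀ k, z k ≠ s) → AnalyticAt ℂ R s := by
    rw [hR]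
    exact hRa
  -- the error
  obtain ⟨E, hE⟩ : ∃ E : ℝ → ℂ, E = fun y : ℝ =>
      (P y : ℂ) - ∑' k, a k * Complex.exp (z k * max y 0) := ⟨_, rfl⟩
  have hEc : Continuous E := by
    rw [hE]
    exact (Complex.continuous_ofReal.comp hP).sub hS
  have hE0 : ∀ y : ℝ, 0 ≤ y → E y = (P y : ℂ) - ∑' k, a k * Complex.exp (z k * y) := by
    intro y hy
    rw [hE]
    show (P y : ℂ) - ∑' k, a k * Complex.exp (z k * max y 0) = _
    rw [max_eq_left hy]
  have hEl : Tendsto E atTop (𝓝 0) := by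
    refine hlim.congr' ?_
    filter_upwards [eventually_ge_atTop (0 : ℝ)] with y hy
    rw [hE0 y hy, ha]
  obtain ⟨B, hB⟩ : ∃ B : ℝ, ∀ y, 0 ≤ y → ‖E y‖ ≤ B := by
    obtain ⟨Y0, hY0⟩ := Metric.tendsto_atTop.1 hEl 1 one_pos
    obtain ⟨B, hB⟩ := (isCompact_Icc (a := (0 : ℝ)) (b := Y0)).exists_bound_of_continuousOn
      hEc.continuousOn
    refine ⟨max B 1, fun y hy => ?_⟩
    rcases le_total y Y0 with h | h
    · exact (hB y ⟨hy, h⟩).trans (le_max_left _ _)
    · have h3 := hY0 y h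
      rw [dist_zero_right] at h3
      exact h3.le.trans (le_max_right _ _)
  have hEi : ∀ w : ℝ, 0 < w →
      IntegrableOn (fun u : ℝ => E u * (Real.exp (-(w * u)) : ℂ)) (Ioi 0) := by
    intro w hw
    have h3 : IntegrableOn (fun u : ℝ => B * Real.exp (-w * u)) (Ioi 0) :=
      (integrableOn_exp_mul_Ioi (by linarith : -w < 0) 0).const_mul B
    refine Integrable.mono' h3 ?_ ?_
    · exact (hEc.mul (by fun_prop)).aestronglyMeasurable
    · refine (ae_restrict_iff' measurableSet_Ioi).mpr (Eventually.of_forall fun u hu => ?_)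
      rw [norm_mul, Complex.norm_real, Real.norm_of_nonneg (Real.exp_pos _).le, neg_mul]
      exact mul_le_mul_of_nonneg_right (hB u (le_of_lt hu)) (Real.exp_pos _).le
  obtain ⟨LE, hLE⟩ : ∃ LE : ℂ → ℂ, LE = fun s : ℂ =>
      ∫ u in Ioi (0 : ℝ), E u * Complex.exp (-(s * u)) := ⟨_, rfl⟩
  have hEs := h2.2 E 0 hEc.measurable hEi
  have hLEan : ∀ s : ℂ, 0 < s.re → AnalyticAt ℂ LE s := by
    intro s hs
    rw [hLE]
    exact (hEs s hs).2
  -- positive and negative parts
  obtain ⟨pp, hpp⟩ : ∃ pp : ℝ → ℝ, pp = fun u => max (P u) 0 := ⟨_, rfl⟩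
  obtain ⟨pm, hpm⟩ : ∃ pm : ℝ → ℝ, pm = fun u => max (-P u) 0 := ⟨_, rfl⟩
  have hppc : Continuous pp := by
    rw [hpp]
    exact hP.max continuous_const
  have hpmc : Continuous pm := by
    rw [hpm]
    exact hP.neg.max continuous_const
  have hpm0 : ∀ u, 0 ≤ pm u := by
    intro u
    rw [hpm]
    exact le_max_right _ _
  have hppm : ∀ u, pm u = pp u - P u := by
    intro u
    rw [hpp, hpm]
    show max (-P u) 0 = max (P u) 0 - P u
    rcases le_total (P u) 0 with h | h
    · rw [max_eq_left (by linarith), max_eq_right h]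
      ring
    · rw [max_eq_right (by linarith), max_eq_left h]
      ring
  have hppi : ∀ w : ℝ, 0 < w → LInt pp w := by
    intro w hw
    refine h2.1 pp hppc (fun y => ?_) ?_ w hw
    · rw [hpp]
      exact le_max_right _ _
    · rw [hpp]
      exact hC
  have hLP := fun s hs => lap_an h2 hppc.measurable hppi s hs
  -- the relation to the right of 1
  have hrel : ∀ s : ℂ, 1 < s.re →
      IntegrableOn (fun u : ℝ => (pm u : ℂ) * Complex.exp (-(s * u))) (Ioi 0) ∧
      lapC pm s = lapC pp s - R s - LE s := by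
    intro s hs
    have hs0 : 0 < s.re := by linarith
    have i1 := (hLP s hs0).1
    obtain ⟨i2, e2⟩ := hRi s hs
    have i3 := (hEs s hs0).1
    have heq : ∀ u ∈ Ioi (0 : ℝ), (pp u : ℂ) * Complex.exp (-(s * u)) -
        (∑' k, a k * Complex.exp (z k * u)) * Complex.exp (-(s * u)) -
        E u * Complex.exp (-(s * u)) = (pm u : ℂ) * Complex.exp (-(s * u)) := by
      intro u hu
      have hu' : (0 : ℝ) ≤ u := le_of_lt hu
      rw [hE0 u hu', hppm u]
      push_cast
      ring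
    constructor
    · exact ((i1.sub i2).sub i3).congr_fun heq measurableSet_Ioi
    · have e4 : lapC pm s = ∫ u in Ioi (0 : ℝ), ((pp u : ℂ) * Complex.exp (-(s * u)) -
          (∑' k, a k * Complex.exp (z k * u)) * Complex.exp (-(s * u)) -
          E u * Complex.exp (-(s * u))) := by
        unfold lapC
        exact (setIntegral_congr_fun measurableSet_Ioi heq).symm
      have i12 : IntegrableOn (fun u : ℝ => (pp u : ℂ) * Complex.exp (-(s * u)) -
          (∑' k, a k * Complex.exp (z k * u)) * Complex.exp (-(s * u))) (Ioi 0) := i1.sub i2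
      rw [e4, integral_sub i12 i3, integral_sub i1 i2, e2, hR, hLE]
      rfl
  have hpmi1 : ∀ w : ℝ, 1 < w → LInt pm w := by
    intro w hw
    have i1 := (hrel (w : ℂ) (by rwa [Complex.ofReal_re])).1.norm
    refine i1.congr (Eventually.of_forall fun u => ?_)
    show ‖(pm u : ℂ) * Complex.exp (-((w : ℂ) * u))‖ = pm u * Real.exp (-(w * u))
    rw [norm_mul, Complex.norm_real, Real.norm_of_nonneg (hpm0 u), Complex.norm_exp]
    congr 2
    simp
  -- Landau
  have hLan : ∀ c : ℝ, 0 ≤ c → (∀ k, (z k).im = 0 → (z k).re ≤ c) →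
      (∀ w > c, LInt pm w) ∧ ∀ w > c, lap pm w = (lapC pp w - R w - LE w).re := by
    intro c hc0 hc
    refine landau_lap hpmc.measurable (fun u _ => hpm0 u) (w1 := 1) (fun w hw => hpmi1 w hw)
      (g := fun w : ℝ => (lapC pp w - R w - LE w).re) ?_ ?_
    · intro w hw
      have hw0 : (0 : ℝ) < (w : ℂ).re := by
        rw [Complex.ofReal_re]
        linarith
      have hz : ∀ k, z k ≠ (w : ℂ) := by
        intro k hk
        have h3 := hc k (by rw [hk, Complex.ofReal_im])
        rw [hk, Complex.ofReal_re] at h3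
        linarith
      exact real_an (F := fun s => lapC pp s - R s - LE s)
        (((hLP _ hw0).2.sub (hRan _ hz)).sub (hLEan _ hw0))
    · intro w hw _
      have h3 := (hrel (w : ℂ) (by rwa [Complex.ofReal_re])).2
      show lap pm w = (lapC pp w - R w - LE w).re
      rw [← h3, lapC_ofReal, Complex.ofReal_re]
  -- no real positive exponents
  have hres : ∀ k0 : Z, ∃ M C δ : ℝ, 0 < M ∧ 0 < δ ∧ ∀ t : ℝ, 0 < t → t < δ →
      ‖R (z k0 + t) - (M * A (z k0)) / t‖ ≤ C := by
    intro k0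
    obtain ⟨C, δ, hδ, h3⟩ := hRp (z k0)
    obtain ⟨M, hM, h4⟩ := residue z μ A hμ hfin k0
    refine ⟨M, C, δ, hM, hδ, fun t ht htδ => ?_⟩
    have ht' : ((t : ℝ) : ℂ) ≠ 0 := by
      rw [Ne, Complex.ofReal_eq_zero]
      exact ht.ne'
    have h5 := h3 (z k0 + t) (by
      intro h
      exact ht' (by
        have := congrArg (fun x => x - z k0) h
        simpa using this)) (by
      rw [add_sub_cancel_left, Complex.norm_real, Real.norm_of_nonneg ht.le]
      exact htδ)
    have h6 : (∑' k, if z k = z k0 then a k else 0) = M * A (z k0) := by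
      rw [← h4, ha]
    rw [h6, add_sub_cancel_left] at h5
    rw [hR]
    exact h5
  have hno : ∀ k, (z k).im = 0 → (z k).re ≤ 0 := by
    by_contra hcon
    push Not at hcon
    obtain ⟨k1, hk1, hk1'⟩ := hcon
    have hTf : {k : Z | (z k).im = 0}.Finite := by
      refine (hfin 1).subset ?_
      intro k hk
      have hk' : (z k).im = 0 := hk
      show ‖z k‖ ≤ 1
      have h3 := Complex.norm_le_abs_re_add_abs_im (z k)
      rw [hk', abs_zero, add_zero] at h3
      exact h3.trans (hre k)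
    obtain ⟨k0, hk0, hmax⟩ := Set.exists_max_image {k : Z | (z k).im = 0} (fun k => (z k).re)
      hTf ⟨k1, hk1⟩
    have hk0' : (z k0).im = 0 := hk0
    obtain ⟨c, hc⟩ : ∃ c, c = (z k0).re := ⟨_, rfl⟩
    have hc0 : 0 < c := by
      rw [hc]
      exact lt_of_lt_of_le hk1' (hmax k1 hk1)
    have hzc : z k0 = (c : ℂ) := by
      apply Complex.ext
      · rw [Complex.ofReal_re, hc]
      · rw [Complex.ofReal_im, hk0']
    obtain ⟨-, hL⟩ := hLan c hc0.le (fun k hk => by
      rw [hc]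
      exact hmax k hk)
    have hcre : 0 < (z k0).re := by
      rw [← hc]
      exact hc0
    obtain ⟨M, C, δ1, hM, hδ1, hp⟩ := hres k0
    obtain ⟨δ2, K, hδ2, hK⟩ := near_bdd (F := fun s => lapC pp s - LE s)
      ((hLP _ hcre).2.sub (hLEan _ hcre))
    obtain ⟨hAre, hAim⟩ := hAr k0 hk0'
    have h3 : M * (A (z k0)).re ≤ 0 := by
      refine no_pole (lt_min hδ1 hδ2) (K := K + C) fun t ht htδ => ?_
      have e1 := hp t ht (htδ.trans_le (min_le_left _ _))
      have e2 := hK (z k0 + t) (by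
        rw [add_sub_cancel_left, Complex.norm_real, Real.norm_of_nonneg ht.le]
        exact htδ.trans_le (min_le_right _ _))
      have e3 := hL (c + t) (by linarith)
      have e4 := lap_nonneg (f := pm) (fun u _ => hpm0 u) (c + t)
      rw [e3] at e4
      have e5 : ((c + t : ℝ) : ℂ) = z k0 + t := by
        rw [hzc]
        push_cast
        ring
      rw [e5] at e4
      have e6 := (Complex.re_le_norm (lapC pp (z k0 + t) - LE (z k0 + t))).trans e2
      have e7 := (Complex.abs_re_le_norm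
        (R (z k0 + t) - (M * A (z k0)) / t)).trans e1
      have e8 := (abs_le.1 e7).1
      have e9 : ((M * A (z k0)) / (t : ℂ)).re = M * (A (z k0)).re / t := by
        rw [Complex.div_ofReal_re, Complex.re_ofReal_mul]
      rw [Complex.sub_re, e9] at e8
      rw [Complex.sub_re, Complex.sub_re] at e4
      rw [Complex.sub_re] at e6
      linarith
    have h4 := mul_pos hM hAre
    linarith
  -- no exponents with positive real part
  by_contra hcon
  push Not at hcon
  obtain ⟨k1, hk1⟩ := hcon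
  obtain ⟨hpmi, -⟩ := hLan 0 le_rfl hno
  have hLM := fun s hs => lap_an h2 hpmc.measurable (a := 0) (fun w hw => hpmi w hw) s hs
  obtain ⟨t, ht⟩ : ∃ t, t = (z k1).im := ⟨_, rfl⟩
  have hTf : {k : Z | (z k).im = t}.Finite := by
    refine (hfin (1 + |t|)).subset ?_
    intro k hk
    have hk' : (z k).im = t := hk
    show ‖z k‖ ≤ 1 + |t|
    have h3 := Complex.norm_le_abs_re_add_abs_im (z k)
    rw [hk'] at h3
    have h4 := hre k
    linarith
  obtain ⟨k0, hk0, hmax⟩ := Set.exists_max_image {k : Z | (z k).im = t} (fun k => (z k).re)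
    hTf ⟨k1, ht.symm⟩
  have hk0' : (z k0).im = t := hk0
  obtain ⟨c, hc⟩ : ∃ c, c = (z k0).re := ⟨_, rfl⟩
  have hc0 : 0 < c := by
    rw [hc]
    exact lt_of_lt_of_le hk1 (hmax k1 ht.symm)
  have hzc : z k0 = (c : ℂ) + t * Complex.I := by
    apply Complex.ext
    · simp [hc]
    · simp [hk0']
  obtain ⟨F, hF⟩ : ∃ F : ℂ → ℂ, F = fun s => lapC pp s - lapC pm s - LE s := ⟨_, rfl⟩
  have hFan : ∀ s : ℂ, 0 < s.re → AnalyticAt ℂ F s := by
    intro s hs
    rw [hF]
    exact ((hLP _ hs).2.sub (hLM _ hs).2).sub (hLEan _ hs)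
  have hFR : ∀ s : ℂ, 1 < s.re → F s = R s := by
    intro s hs
    rw [hF]
    show lapC pp s - lapC pm s - LE s = R s
    rw [(hrel s hs).2]
    ring
  have hray : ∀ x : ℝ, ((x : ℂ) + t * Complex.I).re = x := by
    intro x
    simp
  have hrayi : ∀ x : ℝ, ((x : ℂ) + t * Complex.I).im = t := by
    intro x
    simp
  have hA1 : AnalyticOnNhd ℝ (fun x : ℝ => F ((x : ℂ) + t * Complex.I)) (Ioi c) := by
    intro x hx
    have hx' : c < x := hx
    apply ray_an
    apply hFan
    rw [hray]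
    linarith
  have hA2 : AnalyticOnNhd ℝ (fun x : ℝ => R ((x : ℂ) + t * Complex.I)) (Ioi c) := by
    intro x hx
    have hx' : c < x := hx
    apply ray_an
    apply hRan
    intro k hk
    have h3 : (z k).im = t := by rw [hk, hrayi]
    have h4 := hmax k h3
    rw [hk, hray] at h4
    rw [← hc] at h4
    linarith
  have hx0 : max c 1 + 1 ∈ Ioi c := by
    have := le_max_left c 1
    show c < _
    linarith
  have hev : (fun x : ℝ => F ((x : ℂ) + t * Complex.I)) =ᶠ[𝓝 (max c 1 + 1)]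
      fun x : ℝ => R ((x : ℂ) + t * Complex.I) := by
    have h3 : Ioi (max c 1) ∈ 𝓝 (max c 1 + 1) := Ioi_mem_nhds (by linarith)
    filter_upwards [h3] with x hx
    have hx' : max c 1 < x := hx
    refine hFR _ ?_
    rw [hray]
    exact lt_of_le_of_lt (le_max_right _ _) hx'
  have hEq := hA1.eqOn_of_preconnected_of_eventuallyEq hA2 isPreconnected_Ioi hx0 hev
  obtain ⟨M, C, δ1, hM, hδ1, hp⟩ := hres k0
  obtain ⟨δ2, K, hδ2, hK⟩ := near_bdd (hFan (z k0) (by rw [← hc]; exact hc0))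
  have h3 : ‖(M * A (z k0) : ℂ)‖ ≤ 0 := by
    refine no_pole (lt_min hδ1 hδ2) (K := K + C) fun τ hτ hτδ => ?_
    have e1 := hp τ hτ (hτδ.trans_le (min_le_left _ _))
    have e2 := hK (z k0 + τ) (by
      rw [add_sub_cancel_left, Complex.norm_real, Real.norm_of_nonneg hτ.le]
      exact hτδ.trans_le (min_le_right _ _))
    have e3 : ((c + τ : ℝ) : ℂ) + t * Complex.I = z k0 + τ := by
      rw [hzc]
      push_cast
      ring
    have e4 := hEq (show c + τ ∈ Ioi c by show c < c + τ; linarith)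
    simp only at e4
    rw [e3] at e4
    rw [e4] at e2
    have e5 : ‖(M * A (z k0) : ℂ)‖ / τ = ‖(M * A (z k0) : ℂ) / (τ : ℂ)‖ := by
      rw [norm_div, Complex.norm_real, Real.norm_of_nonneg hτ.le]
    rw [e5]
    have e6 : (M * A (z k0) : ℂ) / (τ : ℂ) =
        R (z k0 + τ) - (R (z k0 + τ) - (M * A (z k0) : ℂ) / (τ : ℂ)) := by ring
    rw [e6]
    exact (norm_sub_le _ _).trans (add_le_add e2 e1)
  have h4 : (M * A (z k0) : ℂ) = 0 := norm_le_zero_iff.1 h3
  rcases mul_eq_zero.1 h4 with h5 | h5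
  · rw [Complex.ofReal_eq_zero] at h5
    linarith
  · exact hA0 k0 h5

end Pool.Agent.N971.LI
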